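import Pool.Agent.Helper90_C2.BN1c
import Pool.Agent.Helper82_K9.WBO
import Pool.Agent.Helper82_K9.TRB
import Pool.Agent.Helper53_K9.Tra
import Pool.Agent.Helper25_K9.PRG
import Pool.Agent.Helper6_K9.NZ
import Pool.Agent.Helper19_K9.OMG
import Pool.Agent.Helper97_K9.NZR
import Pool.Agent.Helper97_K9.ORB
import Pool.Agent.Helper69_K9.Fmg

/-!
# Squad C2, row BN1: the number of ordinary characters
-/

open scoped BigOperators

set_option linter.unusedSectionVars false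

noncomputable section

namespace Pool.Agent.PP.C2.H90

open Pool.Agent.Helper51_AWC Pool.Agent.Helper79_WRA Pool.Agent.PP Pool.Agent.PP.KF
open Pool.Agent.PP.K9
open Pool.Agent.PP.K9.H90 (cj)

attribute [local instance] Ideal.Quotient.field

theorem wbo0 : WboStmt := H82W.wbo (H82.trb H53.tra)

theorem prg0 : PrgStmt := H25.prg wbo0 H3.psi

theorem nz0 : NzStmt := H6.nz H19.omg (H97.nzr H69.fmg H97.orb H34.inx)

section main

variable {ℓ : ℕ} [hℓ : Fact ℓ.Prime] {M : Ideal (integralClosure ℤ ℂ)} [M.IsMaximal]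
  {G : Type} [Group G] [Finite G]

/-- fusion -/
theorem not_fix (hFus : FusStmt) (hM : (ℓ : integralClosure ℤ ℂ) ∈ M) {e : G → FF M}
    {V : Subgroup G} {γ : G → FF M} {T : Subgroup G} (hI : Inr ℓ e V γ T) {n : ℕ} {u : G}
    (hu : u ∈ V) (hou : orderOf u = ℓ ^ n) {β : G → FF M} (hβ : Ab V γ u β) {t : G} {a : ℕ}
    (ha : t * u * t⁻¹ = u ^ a) (h1 : a ≡ 1 [MOD ℓ]) (hinv : ∀ x, β (t * x * t⁻¹) = β x) :
    t * u * t⁻¹ = u := by
  have ht : t * u * t⁻¹ ∈ Subgroup.zpowers u := by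
    rw [ha]; exact Subgroup.npow_mem_zpowers u a
  have hw : t * u * t⁻¹ ∈ V := by
    rw [ha]; exact pow_mem hu a
  obtain ⟨c, hc, hct⟩ := hFus ℓ M hM G e V γ T hI u hu (t * u * t⁻¹) hw β β hβ
    (ab_gen (zp_conj ht) hβ) t rfl hinv
  have h2 : c * t * u * (c * t)⁻¹ = t * u * t⁻¹ := by
    rw [mem_Cu] at hc
    calc c * t * u * (c * t)⁻¹ = c * (t * u * t⁻¹) * c⁻¹ := by group
      _ = t * u * t⁻¹ := hc
  have h3 := key_T hM hI hu hou hct (h2.trans ha) h1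
  rw [mem_Cu, h2] at h3
  exact h3

/-- if `b'` is invariant under `τ` then `β` is invariant under `t` -/
theorem beta_inv {β : G → FF M} {u : G} (hβ : Bk (Cu u) β)
    (hb' : IsBlk (H75.push (H11.pq u) (fun s : Cu u => β s))) {t : G}
    (ht : t * u * t⁻¹ ∈ Subgroup.zpowers u) {τ : H11.Hq u ≃* H11.Hq u}
    (hτ : ∀ s s' : Cu u, (s' : G) = t * s * t⁻¹ → H11.pq u s' = τ (H11.pq u s))
    (h : (fun y => H75.push (H11.pq u) (fun s : Cu u => β s) (τ y)) =
      H75.push (H11.pq u) (fun s : Cu u => β s)) : ∀ x, β (t * x * t⁻¹) = β x := by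
  obtain ⟨hc1, hc2⟩ := conj_mem ht
  have h1 := inv_of_push (H11.pq u) (cj (Cu u) t hc1 hc2) τ (fun x => hτ x _ rfl) hβ.blk hb' h
  intro x
  by_cases hx : x ∈ Cu u
  · exact congrFun h1 ⟨x, hx⟩
  · rw [hβ.off x hx, hβ.off]
    intro h2
    have h3 := hc2 _ h2
    have h4 : t⁻¹ * (t * x * t⁻¹) * t = x := by group
    rw [h4] at h3
    exact hx h3

/-- if `β` is invariant under `t` then `b'` is invariant under `τ` -/
theorem push_inv {β : G → FF M} {u : G} {t : G}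
    (ht : t * u * t⁻¹ ∈ Subgroup.zpowers u) {τ : H11.Hq u ≃* H11.Hq u}
    (hτ : ∀ s s' : Cu u, (s' : G) = t * s * t⁻¹ → H11.pq u s' = τ (H11.pq u s))
    (h : ∀ x, β (t * x * t⁻¹) = β x) :
    (fun y => H75.push (H11.pq u) (fun s : Cu u => β s) (τ y)) =
      H75.push (H11.pq u) (fun s : Cu u => β s) := by
  obtain ⟨hc1, hc2⟩ := conj_mem ht
  have h1 := push_conj (H11.pq u) (cj (Cu u) t hc1 hc2) τ (fun x => hτ x _ rfl)
    (fun s : Cu u => β s)
  rw [← h1]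
  congr 1
  funext x
  exact h x

/-- the orthogonality relations -/
theorem orth (hFus : FusStmt) (hSec : Sec2Stmt) (hTau : TauStmt)
    (hM : (ℓ : integralClosure ℤ ℂ) ∈ M) {e : G → FF M}
    {V : Subgroup G} {γ : G → FF M} {T : Subgroup G} (hI : Inr ℓ e V γ T) {n : ℕ} (hn : 1 ≤ n)
    {u : G} (hu : u ∈ V) (hou : orderOf u = ℓ ^ n) {β : G → FF M} (hβ : Ab V γ u β)
    (hb' : IsBlk (H75.push (H11.pq u) (fun s : Cu u => β s))) {p q : H11.Hq u → ℂ}
    (hp : p ∈ Submodule.span ℂ (IrrE M (H75.push (H11.pq u) (fun s : Cu u => β s))))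
    (hq : q ∈ Submodule.span ℂ (IrrE M (H75.push (H11.pq u) (fun s : Cu u => β s))))
    (hpr : Rc ℓ p) (hqr : Rc ℓ q) {j j' : ℕ} (hj : j.Coprime ℓ) (hj' : j'.Coprime ℓ)
    (hjj : j ≡ j' [MOD ℓ]) :
    ∑ᶠ χ ∈ Irr G, Av ℓ (H11.pq u) (u ^ j) p χ * starRingEnd ℂ (Av ℓ (H11.pq u) (u ^ j') q χ) =
      if j ≡ j' [MOD ℓ ^ n] then (ℓ : ℂ) ^ n * ipn q p else 0 := by
  have hpos : 1 < ℓ ^ n := Nat.one_lt_pow (by omega) hℓ.out.one_lt
  by_cases h0 : j ≡ j' [MOD ℓ ^ n]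
  · rw [if_pos h0]
    have h1 : u ^ j' = u ^ j := by
      rw [← hou] at h0
      exact pow_eq_pow_iff_modEq.2 h0.symm
    rw [h1]
    exact (hSec ℓ n G _ u (H11.pq u) (qn hou) p q hpr hqr j hj).1
  rw [if_neg h0]
  by_cases h : ∃ t : G, u ^ j' = t * u ^ j * t⁻¹
  · obtain ⟨t, ht⟩ := h
    obtain ⟨k, -, hk⟩ := Nat.exists_mul_mod_eq_one_of_coprime (Nat.Coprime.pow_right n hj) hpos
    have hk' : j * k ≡ 1 [MOD ℓ ^ n] := by
      show j * k % ℓ ^ n = 1 % ℓ ^ n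
      rw [hk, Nat.mod_eq_of_lt hpos]
    have h2 : u = u ^ (j * k) := by
      conv_lhs => rw [← pow_one u]
      rw [← hou] at hk'
      exact pow_eq_pow_iff_modEq.2 hk'.symm
    have ha : t * u * t⁻¹ = u ^ (j' * k) := by
      calc t * u * t⁻¹ = t * u ^ (j * k) * t⁻¹ := by rw [← h2]
        _ = (t * u ^ j * t⁻¹) ^ k := by rw [pow_mul, conj_pow]
        _ = u ^ (j' * k) := by rw [← ht, pow_mul]
    have h1 : j' * k ≡ 1 [MOD ℓ] := by
      have h3 : j' * k ≡ j * k [MOD ℓ] := Nat.ModEq.mul_right k hjj.symm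
      exact h3.trans (Nat.ModEq.of_dvd (dvd_pow_self ℓ (by omega)) hk')
    have htz : t * u * t⁻¹ ∈ Subgroup.zpowers u := by
      rw [ha]; exact Subgroup.npow_mem_zpowers u _
    obtain ⟨τ, hτ1, -, hτ3⟩ := hTau ℓ (ℓ ^ n) G _ u (H11.pq u) (qn hou) t htz
    have hne : (fun y => H75.push (H11.pq u) (fun s : Cu u => β s) (τ y)) ≠
        H75.push (H11.pq u) (fun s : Cu u => β s) := by
      intro h4
      have h5 := not_fix hFus hM hI hu hou hβ ha h1 (beta_inv hβ.bk hb' htz hτ1 h4)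
      have h6 : u ^ j' = u ^ j := by
        rw [ht, ← conj_pow, h5]
      rw [pow_eq_pow_iff_modEq, hou] at h6
      exact h0 h6.symm
    have h3 : ∑ᶠ χ ∈ Irr G, Av ℓ (H11.pq u) (u ^ j) p χ *
        starRingEnd ℂ (Av ℓ (H11.pq u) (u ^ j') q χ) =
        ∑ᶠ χ ∈ Irr G, Av ℓ (H11.pq u) (u ^ j) p χ *
        starRingEnd ℂ (Av ℓ (H11.pq u) (u ^ j) (fun h => q (τ h)) χ) := by
      refine finsum_mem_congr rfl fun χ hχ => ?_
      rw [ht, hτ3 (u ^ j) q χ hχ]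
    rw [h3, (hSec ℓ n G _ u (H11.pq u) (qn hou) p (fun h => q (τ h)) hpr (rc_tau τ hqr) j hj).1,
      ipn_span (irrE_disj (H17.blk_equiv τ hb') hb' hne) (span_tau τ hb'.1.1 hq) hp, mul_zero]
  · exact (hSec ℓ n G _ u (H11.pq u) (qn hou) p q hpr hqr j hj).2 j' hj' h

end main

/-- BN1. -/
theorem bn1 (hExb : ExbStmt) (hFus : FusStmt) (hSta : StaStmt) (hCnt : CntStmt)
    (hInt : Int2Stmt) (hSec : Sec2Stmt) (hTau : TauStmt) (hPrg : Prg2Stmt) (hPsn : PsnStmt) :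
    Bn1Stmt := by
  classical
  intro ℓ hℓ M _ hM G _ _ e V γ T hI n hn hTn u hu hou hT β hβ
  have hF : GoodF ℓ (FF M) := PP.H50.fld ℓ hℓ.out M hM
  obtain ⟨β₀, hβ₀, hemul, hTp, huniq, hconj⟩ := hExb ℓ (FF M) hF G e V γ T hI u hu
  have hββ : β = β₀ := huniq β hβ
  rw [← hββ] at hemul hTp huniq hconj
  obtain ⟨hb', ⟨V', hV', hV'c⟩, hlb⟩ := quot hPsn hM hTn.comm hTn.card hu hou hβ.bk.blk hTp
  obtain ⟨m, hm, g, hg1, hg2, hg3⟩ := hSta ℓ M hM _ _ hb' V' hV' hV'c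
  rw [hlb]
  obtain ⟨E, hE⟩ : ∃ E : ℕ, E = lb (H75.push (H11.pq u) (fun s : Cu u => β s)) := ⟨_, rfl⟩
  rw [← hE] at hm ⊢
  subst hE
  refine ⟨m, hm, ?_⟩
  have := Fintype.ofFinite G
  have := Fintype.ofFinite (H11.Hq u)
  have := Fintype.ofFinite (Irr G)
  have hpos : 0 < ℓ ^ n := pow_pos hℓ.out.pos n
  have hVz : ∀ t ∈ T, Subgroup.zpowers (t * u * t⁻¹) = Subgroup.zpowers u :=
    fun t ht => zp_conj (hT t ht)
  -- `β` is invariant under `T`
  have hinv : ∀ t ∈ T, ∀ x, β (t * x * t⁻¹) = β x := by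
    intro t ht x
    have h1 := huniq _ (ab_gen (hVz t ht).symm (hconj t ht))
    have h2 := congrFun h1 (t * x * t⁻¹)
    have h3 : t⁻¹ * (t * x * t⁻¹) * t = x := by group
    rw [← h2, h3]
  -- the set `X`
  obtain ⟨X, hX⟩ : ∃ X : Finset (Irr G), X = Finset.univ.filter
    (fun x : Irr G => (x : G → ℂ) ∈ IrrE M e) := ⟨_, rfl⟩
  have hXc : X.card = (IrrE M e).ncard := by
    rw [hX, ← Set.ncard_coe_finset]
    refine (Set.ncard_image_of_injective _ Subtype.val_injective).symm.trans ?_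
    congr 1
    ext χ
    constructor
    · rintro ⟨x, hx, rfl⟩
      rw [Finset.mem_coe, Finset.mem_filter] at hx
      exact hx.2
    · intro hχ
      refine ⟨⟨χ, hχ.1⟩, ?_, rfl⟩
      rw [Finset.mem_coe, Finset.mem_filter]
      exact ⟨Finset.mem_univ _, hχ⟩
  -- the exponents
  obtain ⟨R, hR⟩ : ∃ R : Finset ℕ, R = (Finset.range (ℓ ^ n)).filter
    (fun a => ∃ t ∈ T, t * u * t⁻¹ = u ^ a) := ⟨_, rfl⟩
  have hRc : R.card = (T ⊓ Cu u).relIndex T := by
    refine card_R' hpos hou hT R (fun a => ?_)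
    rw [hR, Finset.mem_filter, Finset.mem_range]
  have hζ : IsPrimitiveRoot (Complex.exp (2 * Real.pi * Complex.I / ((ℓ ^ n : ℕ) : ℂ))) (ℓ ^ n) :=
    Complex.isPrimitiveRoot_exp _ hpos.ne'
  have hmain := hCnt ℓ n hn _ hζ (Irr G) X _ m
    (fun x i j => Av ℓ (H11.pq u) (u ^ j) (g i) (x : G → ℂ)) ?_ ?_ ?_ R ?_ ?_ ?_
  · rw [← hRc, ← hXc]
    exact hmain
  · -- integrality
    intro x i
    exact hInt ℓ n G _ u (H11.pq u) (qn hou) (g i) (H11.ze_zi M _ (hg1 i).1) (hg1 i).2 x x.2 _ hζ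
  · -- orthogonality
    intro j j' hj hj' hjj i i'
    have h1 := orth hFus hSec hTau hM hI (by omega) hu hou hβ hb' (H11.ze_span M _ (hg1 i).1)
      (H11.ze_span M _ (hg1 i').1) (hg1 i).2 (hg1 i').2 hj hj' hjj
    rw [H11.sum_irr (S := Irr G) subset_rfl _ (fun χ h1 h2 => absurd h1 h2), hg2] at h1
    rw [h1]
    have h3 : (if i' = i then (1 : ℂ) else 0) = if i = i' then 1 else 0 := by
      by_cases h2 : i = i'
      · rw [if_pos h2.symm, if_pos h2]
      · rw [if_neg (fun h => h2 h.symm), if_neg h2]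
    rw [h3]
  · -- nonvanishing
    intro x hx
    rw [hX, Finset.mem_filter] at hx
    by_contra hcon
    have h1 := nz0 ℓ M hM G e hI.blk V hI.tp hI.comm u hu (fun s : Cu u => β s) hβ.bk.blk hemul
      hTp.gd u (Subgroup.mem_zpowers u) x hx.2
    apply h1
    rw [← hPrg ℓ M hM n G _ u (H11.pq u) (qn hou) (fun s : Cu u => β s) hβ.bk.blk.1 u
      (Subgroup.mem_zpowers u) x x.2]
    have h2 : K9.pr M (H75.push (H11.pq u) (fun s : Cu u => β s)) ∈
        Submodule.span ℂ (IrrE M (H75.push (H11.pq u) (fun s : Cu u => β s))) := by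
      have hfin : (IrrE M (H75.push (H11.pq u) (fun s : Cu u => β s))).Finite :=
        Set.Finite.subset (Set.toFinite (Irr (H11.Hq u))) fun χ h => h.1
      have h3 : K9.pr M (H75.push (H11.pq u) (fun s : Cu u => β s)) =
          ∑ χ ∈ hfin.toFinset, χ 1 • χ := by
        funext y
        rw [K9.pr, finsum_mem_eq_finite_toFinset_sum _ hfin, Finset.sum_apply]
        rfl
      rw [h3]
      refine Submodule.sum_mem _ fun χ hχ => Submodule.smul_mem _ _ (Submodule.subset_span ?_)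
      exact (hfin.mem_toFinset).1 hχ
    have h4 : Rc ℓ (K9.pr M (H75.push (H11.pq u) (fun s : Cu u => β s))) :=
      (prg0 ℓ M hM).1 _ _ hb'.1
    obtain ⟨d, hd⟩ := hg3 _ h2 h4
    rw [hd, Av_sum]
    refine Finset.sum_eq_zero fun i _ => ?_
    have h5 : Av ℓ (H11.pq u) u (g i) (x : G → ℂ) = 0 := by
      by_contra h6
      apply hcon
      refine ⟨i, ?_⟩
      show Av ℓ (H11.pq u) (u ^ 1) (g i) (x : G → ℂ) ≠ 0
      rw [pow_one]
      exact h6
    rw [h5, mul_zero]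
  · -- `R` is prime to `ℓ`
    intro α hα
    rw [hR, Finset.mem_filter] at hα
    obtain ⟨-, t, ht, hα⟩ := hα
    have h1 : orderOf (u ^ α) = orderOf u := by
      rw [← hα]
      exact orderOf_injective (MulAut.conj t).toMonoidHom (MulAut.conj t).injective u
    rw [orderOf_pow, hou] at h1
    have h2 : (ℓ ^ n).gcd α = 1 := by
      have h3 : (ℓ ^ n).gcd α ∣ ℓ ^ n := Nat.gcd_dvd_left _ _
      have h4 := Nat.div_mul_cancel h3
      rw [h1] at h4
      exact Nat.eq_of_mul_eq_mul_left hpos (by rw [h4, mul_one])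
    exact (Nat.Coprime.coprime_dvd_left (dvd_pow_self ℓ (by omega)) h2).symm
  · -- distinct modulo `ℓ`
    intro α hα α' hα' hαα
    rw [hR, Finset.mem_filter, Finset.mem_range] at hα hα'
    obtain ⟨hαn, t, ht, hα⟩ := hα
    obtain ⟨hαn', t', ht', hα'⟩ := hα'
    have hs : t⁻¹ * t' ∈ T := mul_mem (inv_mem ht) ht'
    obtain ⟨c, hc⟩ := ex_pow (hT _ hs)
    have h1 : u ^ (α * c) = u ^ α' := by
      calc u ^ (α * c) = (t * u * t⁻¹) ^ c := by rw [hα, pow_mul]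
        _ = t * u ^ c * t⁻¹ := conj_pow
        _ = t' * u * t'⁻¹ := by rw [← hc]; group
        _ = u ^ α' := hα'
    rw [pow_eq_pow_iff_modEq, hou] at h1
    have h2 : α * c ≡ α * 1 [MOD ℓ] := by
      rw [mul_one]
      exact (Nat.ModEq.of_dvd (dvd_pow_self ℓ (by omega)) h1).trans hαα.symm
    have hco : Nat.gcd ℓ α = 1 := by
      have h1 : orderOf (u ^ α) = orderOf u := by
        rw [← hα]
        exact orderOf_injective (MulAut.conj t).toMonoidHom (MulAut.conj t).injective u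
      rw [orderOf_pow, hou] at h1
      have h2 : (ℓ ^ n).gcd α = 1 := by
        have h3 : (ℓ ^ n).gcd α ∣ ℓ ^ n := Nat.gcd_dvd_left _ _
        have h4 := Nat.div_mul_cancel h3
        rw [h1] at h4
        exact Nat.eq_of_mul_eq_mul_left hpos (by rw [h4, mul_one])
      exact Nat.Coprime.coprime_dvd_left (dvd_pow_self ℓ (by omega)) h2
    have h3 : c ≡ 1 [MOD ℓ] := Nat.ModEq.cancel_left_of_coprime hco h2
    have h4 := key_T hM hI hu hou hs hc h3
    rw [mem_Cu] at h4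
    have h5 : u ^ α = u ^ α' := by
      rw [← hα, ← hα']
      calc t * u * t⁻¹ = t * (t⁻¹ * t' * u * (t⁻¹ * t')⁻¹) * t⁻¹ := by rw [h4]
        _ = t' * u * t'⁻¹ := by group
    rw [pow_eq_pow_iff_modEq, hou] at h5
    exact Nat.ModEq.eq_of_lt_of_lt h5 hαn hαn'
  · -- the action of `R`
    intro α hα
    rw [hR, Finset.mem_filter] at hα
    obtain ⟨-, t, ht, hα⟩ := hα
    obtain ⟨τ, hτ1, -, hτ3⟩ := hTau ℓ (ℓ ^ n) G _ u (H11.pq u) (qn hou) t (hT t ht)
    have h1 := push_inv (hT t ht) hτ1 (hinv t ht)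
    have h2 : ∀ i, ∃ d : Fin (lb (H75.push (H11.pq u) (fun s : Cu u => β s))) → ℂ,
        (fun h => g i (τ h)) = ∑ i', d i' • g i' := by
      intro i
      refine hg3 _ ?_ (rc_tau τ (hg1 i).2)
      have h3 := span_tau τ hb'.1.1 (H11.ze_span M _ (hg1 i).1)
      rw [h1] at h3
      exact h3
    choose d hd using h2
    refine ⟨fun i i' => starRingEnd ℂ (d i i'), fun x _ i j _ => ?_⟩
    show Av ℓ (H11.pq u) (u ^ (α * j)) (g i) (x : G → ℂ) =
      ∑ i', starRingEnd ℂ (d i i') * Av ℓ (H11.pq u) (u ^ j) (g i') (x : G → ℂ)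
    have h4 : u ^ (α * j) = t * u ^ j * t⁻¹ := by
      rw [pow_mul, ← hα, conj_pow]
    rw [h4, hτ3 (u ^ j) (g i) x x.2, hd, Av_sum]

end Pool.Agent.PP.C2.H90
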