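import Pool.Agent.Helper57_C2.Stmts
import Pool.Agent.Helper11_K9.Base

/-!
# Squad C2, row BN1: group theory
-/

open scoped BigOperators

noncomputable section

namespace Pool.Agent.PP.C2.H90

open Pool.Agent.Helper51_AWC Pool.Agent.Helper79_WRA Pool.Agent.PP Pool.Agent.PP.KF
open Pool.Agent.PP.K9

section grp

variable {G : Type} [Group G]

theorem conj_iter {u t : G} {a : ℕ} (ha : t * u * t⁻¹ = u ^ a) (k : ℕ) :
    t ^ k * u * (t ^ k)⁻¹ = u ^ a ^ k := by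
  induction k with
  | zero => simp
  | succ k ih =>
    calc t ^ (k + 1) * u * (t ^ (k + 1))⁻¹ = t ^ k * (t * u * t⁻¹) * (t ^ k)⁻¹ := by
          rw [pow_succ]; group
      _ = (t ^ k * u * (t ^ k)⁻¹) ^ a := by rw [ha, conj_pow]
      _ = u ^ a ^ (k + 1) := by rw [ih, ← pow_mul, pow_succ]

theorem one_mod {ℓ : ℕ} [Fact ℓ.Prime] {a : ℕ} (h : a ≡ 1 [MOD ℓ]) (n : ℕ) :
    a ^ ℓ ^ n ≡ 1 [MOD ℓ ^ n] := by
  have h1 : ((ℓ : ℕ) : ℤ) ∣ (a : ℤ) - 1 := by
    have h2 := (Nat.modEq_iff_dvd.1 h.symm)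
    exact_mod_cast h2
  have h3 := dvd_sub_pow_of_dvd_sub h1 n
  rw [one_pow] at h3
  have h4 : ((ℓ ^ n : ℕ) : ℤ) ∣ ((a ^ ℓ ^ n : ℕ) : ℤ) - ((1 : ℕ) : ℤ) := by
    push_cast
    exact (pow_dvd_pow _ (Nat.le_succ n)).trans h3
  exact (Nat.modEq_iff_dvd.2 h4).symm

theorem mem_Cu {u x : G} : x ∈ Cu u ↔ x * u * x⁻¹ = u := by
  rw [Subgroup.mem_centralizer_singleton_iff]
  constructor
  · intro h; rw [h, mul_inv_cancel_right]
  · intro h
    calc x * u = (x * u * x⁻¹) * x := by group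
      _ = u * x := by rw [h]

/-- an element of order prime to `ℓ` which acts on `u` by a number `1 mod ℓ` centralises `u` -/
theorem key {ℓ n : ℕ} [Fact ℓ.Prime] {u : G} (hu : orderOf u = ℓ ^ n) {t : G} {N : ℕ}
    (hN : ¬ ℓ ∣ N) (hc : t ^ N ∈ Cu u) {a : ℕ} (ha : t * u * t⁻¹ = u ^ a)
    (h1 : a ≡ 1 [MOD ℓ]) : t ∈ Cu u := by
  have hℓ : ℓ.Prime := Fact.out
  have h2 : t ^ ℓ ^ n ∈ Cu u := by
    rw [mem_Cu, conj_iter ha]
    have h3 := one_mod h1 n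
    rw [← hu] at h3
    have h4 := pow_eq_pow_iff_modEq.2 h3
    rw [hu] at h4
    rw [h4, pow_one]
  have hco : Nat.Coprime (ℓ ^ n) N := Nat.Coprime.pow_left n ((Nat.Prime.coprime_iff_not_dvd hℓ).2 hN)
  have h6 := Nat.gcd_eq_gcd_ab (ℓ ^ n) N
  rw [hco.gcd_eq_one] at h6
  have h7 : t = (t ^ ℓ ^ n) ^ (ℓ ^ n).gcdA N * (t ^ N) ^ (ℓ ^ n).gcdB N := by
    rw [← zpow_natCast, ← zpow_natCast, ← zpow_mul, ← zpow_mul, ← zpow_add, ← h6]
    simp
  rw [h7]
  exact mul_mem (zpow_mem h2 _) (zpow_mem hc _)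

open Classical in
/-- the number of the exponents -/
theorem card_R {T : Subgroup G} {u : G} {m : ℕ} (hm : 0 < m) (hu : orderOf u = m)
    (hT : ∀ t ∈ T, t * u * t⁻¹ ∈ Subgroup.zpowers u) :
    ((Finset.range m).filter (fun a => ∃ t ∈ T, t * u * t⁻¹ = u ^ a)).card =
      (T ⊓ Cu u).relIndex T := by
  have hrel : ∀ s t : T, QuotientGroup.mk (s := (T ⊓ Cu u).subgroupOf T) s =
      QuotientGroup.mk t ↔ (s : G) * u * (s : G)⁻¹ = (t : G) * u * (t : G)⁻¹ := by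
    intro s t
    rw [QuotientGroup.eq, Subgroup.mem_subgroupOf, Subgroup.mem_inf, mem_Cu]
    constructor
    · rintro ⟨-, h⟩
      have h' : (s : G)⁻¹ * t * u * ((s : G)⁻¹ * t)⁻¹ = u := h
      calc (s : G) * u * (s : G)⁻¹ = s * ((s : G)⁻¹ * t * u * ((s : G)⁻¹ * t)⁻¹) * (s : G)⁻¹ := by
            rw [h']
        _ = (t : G) * u * (t : G)⁻¹ := by group
    · intro h
      refine ⟨(s⁻¹ * t).2, ?_⟩
      show (s : G)⁻¹ * t * u * ((s : G)⁻¹ * t)⁻¹ = u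
      calc (s : G)⁻¹ * t * u * ((s : G)⁻¹ * t)⁻¹ = (s : G)⁻¹ * ((t : G) * u * (t : G)⁻¹) * s := by
            group
        _ = (s : G)⁻¹ * ((s : G) * u * (s : G)⁻¹) * s := by rw [h]
        _ = u := by group
  let f : T ⧸ (T ⊓ Cu u).subgroupOf T → G := fun q => (q.out : G) * u * (q.out : G)⁻¹
  have hf : Function.Injective f := by
    intro q r h
    have h1 := (hrel q.out r.out).2 h
    rw [QuotientGroup.out_eq', QuotientGroup.out_eq'] at h1
    exact h1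
  have h1 : Set.range f = (fun a : ℕ => u ^ a) ''
      ((Finset.range m).filter (fun a => ∃ t ∈ T, t * u * t⁻¹ = u ^ a) : Set ℕ) := by
    ext g
    constructor
    · rintro ⟨q, rfl⟩
      obtain ⟨k, hk⟩ := Subgroup.mem_zpowers_iff.1 (hT q.out q.out.2)
      have h2 : u ^ (k % (m : ℤ)).toNat = u ^ k := by
        have h3 : (((k % (m : ℤ)).toNat : ℕ) : ℤ) = k % (m : ℤ) :=
          Int.toNat_of_nonneg (Int.emod_nonneg _ (by exact_mod_cast hm.ne'))
        rw [← zpow_natCast, h3, ← hu, zpow_mod_orderOf]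
      refine ⟨(k % (m : ℤ)).toNat, ?_, ?_⟩
      · rw [Finset.mem_coe, Finset.mem_filter, Finset.mem_range]
        refine ⟨?_, q.out, q.out.2, ?_⟩
        · have := Int.emod_lt_of_pos k (by exact_mod_cast hm : (0 : ℤ) < m)
          omega
        · rw [h2, hk]
      · show u ^ _ = f q
        rw [h2, hk]
    · rintro ⟨a, ha, rfl⟩
      rw [Finset.mem_coe, Finset.mem_filter] at ha
      obtain ⟨-, t, ht, h2⟩ := ha
      refine ⟨QuotientGroup.mk ⟨t, ht⟩, ?_⟩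
      have h3 := (hrel (QuotientGroup.mk (s := (T ⊓ Cu u).subgroupOf T) ⟨t, ht⟩ :
        T ⧸ (T ⊓ Cu u).subgroupOf T).out ⟨t, ht⟩).1 (QuotientGroup.out_eq' _)
      show f _ = u ^ a
      rw [← h2]
      exact h3
  have hinj : Set.InjOn (fun a : ℕ => u ^ a)
      ((Finset.range m).filter (fun a => ∃ t ∈ T, t * u * t⁻¹ = u ^ a) : Set ℕ) := by
    intro a ha b hb hab
    rw [Finset.mem_coe, Finset.mem_filter, Finset.mem_range] at ha hb
    have h2 := pow_eq_pow_iff_modEq.1 hab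
    rw [hu] at h2
    exact Nat.ModEq.eq_of_lt_of_lt h2 ha.1 hb.1
  have h2 : (T ⊓ Cu u).relIndex T = Nat.card (Set.range f) := by
    rw [Subgroup.relIndex, Subgroup.index, Nat.card_range_of_injective hf]
  rw [h2, h1, Nat.card_coe_set_eq, Set.InjOn.ncard_image hinj, Set.ncard_coe_finset]

open Classical in
theorem card_R' {T : Subgroup G} {u : G} {m : ℕ} (hm : 0 < m) (hu : orderOf u = m)
    (hT : ∀ t ∈ T, t * u * t⁻¹ ∈ Subgroup.zpowers u) (R : Finset ℕ)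
    (hR : ∀ a, a ∈ R ↔ a < m ∧ ∃ t ∈ T, t * u * t⁻¹ = u ^ a) :
    R.card = (T ⊓ Cu u).relIndex T := by
  rw [← card_R hm hu hT]
  congr 1
  ext a
  rw [hR, Finset.mem_filter, Finset.mem_range]

end grp

end Pool.Agent.PP.C2.H90
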