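import Pool.Agent.Helper90_C2.BN1a
import Pool.Agent.Helper3_K9.Psi
import Pool.Agent.Helper50_PP.Res
import Pool.Agent.Helper17_PP.Prv
import Pool.Agent.Helper75_PP.Quo

/-!
# Squad C2, row BN1: characters and blocks
-/

open scoped BigOperators

set_option linter.unusedSectionVars false

noncomputable section

namespace Pool.Agent.PP.C2.H90

open Pool.Agent.Helper51_AWC Pool.Agent.Helper79_WRA Pool.Agent.PP Pool.Agent.PP.KF
open Pool.Agent.PP.K9

attribute [local instance] Ideal.Quotient.field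

section inner

variable {G : Type} [Group G] [Finite G]

theorem ipn_add_left (f g h : G → ℂ) : ipn (f + g) h = ipn f h + ipn g h := by
  have := Fintype.ofFinite G
  simp only [H11.ipn_eq, Pi.add_apply, add_mul, Finset.sum_add_distrib, mul_add]

theorem ipn_add_right (f g h : G → ℂ) : ipn f (g + h) = ipn f g + ipn f h := by
  have := Fintype.ofFinite G
  simp only [H11.ipn_eq, Pi.add_apply, map_add, mul_add, Finset.sum_add_distrib]

theorem ipn_smul_left (c : ℂ) (f h : G → ℂ) : ipn (c • f) h = c * ipn f h := by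
  have := Fintype.ofFinite G
  simp only [H11.ipn_eq, Pi.smul_apply, smul_eq_mul, Finset.mul_sum]
  exact Finset.sum_congr rfl fun x _ => by ring

theorem ipn_smul_right (c : ℂ) (f h : G → ℂ) : ipn f (c • h) = starRingEnd ℂ c * ipn f h := by
  have := Fintype.ofFinite G
  simp only [H11.ipn_eq, Pi.smul_apply, smul_eq_mul, map_mul, Finset.mul_sum]
  exact Finset.sum_congr rfl fun x _ => by ring

theorem ipn_zero_left (h : G → ℂ) : ipn 0 h = 0 := by
  have h1 := ipn_smul_left 0 (0 : G → ℂ) h
  rwa [zero_smul, zero_mul] at h1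

theorem ipn_zero_right (h : G → ℂ) : ipn h 0 = 0 := by
  have h1 := ipn_smul_right 0 h (0 : G → ℂ)
  rwa [zero_smul, map_zero, zero_mul] at h1

/-- orthogonality of the spans of orthogonal sets -/
theorem ipn_span {S S' : Set (G → ℂ)} (h : ∀ χ ∈ S, ∀ ψ ∈ S', ipn χ ψ = 0) {f g : G → ℂ}
    (hf : f ∈ Submodule.span ℂ S) (hg : g ∈ Submodule.span ℂ S') : ipn f g = 0 := by
  have h1 : ∀ χ ∈ S, ipn χ g = 0 := by
    intro χ hχ
    refine Submodule.span_induction (p := fun g _ => ipn χ g = 0) (fun ψ hψ => h χ hχ ψ hψ)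
      (ipn_zero_right χ) (fun x y _ _ hx hy => ?_) (fun c x _ hx => ?_) hg
    · rw [ipn_add_right, hx, hy, add_zero]
    · rw [ipn_smul_right, hx, mul_zero]
  refine Submodule.span_induction (p := fun f _ => ipn f g = 0) h1
    (ipn_zero_left g) (fun x y _ _ hx hy => ?_) (fun c x _ hx => ?_) hf
  · rw [ipn_add_left, hx, hy, add_zero]
  · rw [ipn_smul_left, hx, mul_zero]

/-- linearity in `p` -/
theorem Av_sum {C : Subgroup G} {H : Type} [Group H] (ℓ : ℕ) (π : C →* H) (w : G) (χ : G → ℂ)
    {ι : Type} (s : Finset ι) (d : ι → ℂ) (g : ι → H → ℂ) :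
    Av ℓ π w (∑ i ∈ s, d i • g i) χ = ∑ i ∈ s, starRingEnd ℂ (d i) * Av ℓ π w (g i) χ := by
  classical
  induction s using Finset.induction_on with
  | empty =>
    rw [Finset.sum_empty, Finset.sum_empty]
    have h1 := H11.Av_smul ℓ π w 0 (0 : H → ℂ) χ
    rwa [zero_smul, map_zero, zero_mul] at h1
  | insert a s ha ih =>
    rw [Finset.sum_insert ha, Finset.sum_insert ha, H11.Av_add, H11.Av_smul, ih]

end inner

section blocks

variable {M : Ideal (integralClosure ℤ ℂ)} [M.IsMaximal] {H : Type} [Group H] [Finite H]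

theorem push_tau (τ : H ≃* H) (b : H → FF M) :
    H75.push τ.toMonoidHom (fun h => b (τ h)) = b := by
  classical
  have := Fintype.ofFinite H
  funext y
  rw [H75.push_eq, Finset.sum_eq_single_of_mem (τ.symm y) (Finset.mem_univ _)]
  · rw [if_pos (show τ.toMonoidHom (τ.symm y) = y from τ.apply_symm_apply y),
      τ.apply_symm_apply]
  · intro x _ hx
    rw [if_neg]
    intro h
    exact hx (by rw [← h]; exact (τ.symm_apply_apply x).symm)

/-- the characters of the image of a block under an automorphism -/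
theorem irrE_tau (τ : H ≃* H) {b : H → FF M} (hb : IsCl b) {q : H → ℂ} (hq : q ∈ IrrE M b) :
    (fun h => q (τ h)) ∈ IrrE M (fun h => b (τ h)) := by
  have h1 := (H3.psi M H H τ.toMonoidHom τ.surjective (fun h => b (τ h)) (by
    intro x y
    change b (τ (y * x * y⁻¹)) = b (τ x)
    rw [map_mul, map_mul, map_inv, hb])).1
  rw [push_tau τ b] at h1
  rw [h1] at hq
  exact hq.2

theorem span_tau (τ : H ≃* H) {b : H → FF M} (hb : IsCl b) {q : H → ℂ}
    (hq : q ∈ Submodule.span ℂ (IrrE M b)) :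
    (fun h => q (τ h)) ∈ Submodule.span ℂ (IrrE M (fun h => b (τ h))) := by
  refine Submodule.span_induction
    (p := fun q _ => (fun h => q (τ h)) ∈ Submodule.span ℂ (IrrE M (fun h => b (τ h))))
    (fun ψ hψ => Submodule.subset_span (irrE_tau τ hb hψ))
    (Submodule.zero_mem _) (fun x y _ _ hx hy => Submodule.add_mem _ hx hy)
    (fun c x _ hx => Submodule.smul_mem _ c hx) hq

theorem rc_tau {ℓ : ℕ} (τ : H ≃* H) {q : H → ℂ} (hq : Rc ℓ q) : Rc ℓ (fun h => q (τ h)) := by
  refine ⟨fun x y => ?_, fun x hx => hq.sg _ ?_⟩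
  · rw [map_mul, map_mul, map_inv, hq.cl]
  · intro h
    apply hx
    unfold Reg at h ⊢
    rwa [MulEquiv.orderOf_eq] at h

/-- different blocks have no common character -/
theorem irrE_disj {a b : H → FF M} (ha : IsBlk a) (hb : IsBlk b) (hne : a ≠ b) :
    ∀ χ ∈ IrrE M a, ∀ ψ ∈ IrrE M b, ipn χ ψ = 0 := by
  intro χ hχ ψ hψ
  have := Fintype.ofFinite H
  refine H11.ipn_ne hχ.1 hψ.1 ?_
  rintro rfl
  have h1 : mulF a b = 0 := by
    by_contra h
    exact hne (H17.blk_eq ha hb h)
  have h2 := H50.res_mul (M := M) ha.1.1 hb.1.1 hχ.1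
  rw [h1, H50.res_zero, hχ.2, hψ.2, mul_one] at h2
  exact zero_ne_one h2

/-- the image of a conjugate -/
theorem push_conj {A : Type} [Group A] [Finite A] (p : A →* H) (κ : A ≃* A) (τ : H ≃* H)
    (h : ∀ x, p (κ x) = τ (p x)) (b : A → FF M) :
    H75.push p (fun x => b (κ x)) = fun y => H75.push p b (τ y) := by
  classical
  have := Fintype.ofFinite A
  funext y
  rw [H75.push_eq, H75.push_eq,
    ← Equiv.sum_comp κ.toEquiv (fun x => if p x = τ y then b x else 0)]
  refine Finset.sum_congr rfl fun x _ => ?_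
  change (if p x = y then b (κ x) else 0) = if p (κ x) = τ y then b (κ x) else 0
  rw [h]
  by_cases h1 : p x = y
  · rw [if_pos h1, if_pos (by rw [h1])]
  · rw [if_neg h1, if_neg (fun h2 => h1 (τ.injective h2))]

/-- a block whose image is invariant is invariant -/
theorem inv_of_push {A : Type} [Group A] [Finite A] (p : A →* H) (κ : A ≃* A) (τ : H ≃* H)
    (h : ∀ x, p (κ x) = τ (p x)) {b : A → FF M} (hb : IsBlk b) (hb' : IsBlk (H75.push p b))
    (hτ : (fun y => H75.push p b (τ y)) = H75.push p b) : (fun x => b (κ x)) = b := by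
  refine H17.blk_eq (H17.blk_equiv κ hb) hb ?_
  intro h0
  have h1 := H75.push_mulF p (fun x => b (κ x)) b
  rw [h0, push_conj p κ τ h b, hτ, hb'.1.2, H75.push_zero] at h1
  exact hb'.2.1 h1.symm

end blocks

end Pool.Agent.PP.C2.H90
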