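import Pool.Agent.Helper90_C2.BN1b
import Pool.Agent.Helper90_K9.Cnj
import Pool.Agent.Helper34_K9.INX
import Pool.Agent.Helper2_K9.PUG
import Pool.Agent.Helper35_K9.CHV
import Pool.Agent.Helper20_PP.Nls

/-!
# Squad C2, row BN1: the quotient of the centraliser and the fusion
-/

open scoped BigOperators

set_option linter.unusedSectionVars false

noncomputable section

namespace Pool.Agent.PP.C2.H90

open Pool.Agent.Helper51_AWC Pool.Agent.Helper79_WRA Pool.Agent.PP Pool.Agent.PP.KF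
open Pool.Agent.PP.K9

attribute [local instance] Ideal.Quotient.field

section quot

variable {G : Type} [Group G] [Finite G]

theorem qn {q : ℕ} {u : G} (h : orderOf u = q) : Qn q u (H11.pq u) where
  ord := h
  sur := QuotientGroup.mk'_surjective _
  ker c := by
    rw [← H11.mem_zc]
    exact QuotientGroup.eq_one_iff c

/-- the block of the quotient -/
theorem quot (hPsn : PsnStmt) {ℓ : ℕ} [hℓ : Fact ℓ.Prime] {M : Ideal (integralClosure ℤ ℂ)}
    [M.IsMaximal] (hM : (ℓ : integralClosure ℤ ℂ) ∈ M) {V : Subgroup G} {u : G} {n : ℕ}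
    (hcomm : ∀ a ∈ V, ∀ b ∈ V, a * b = b * a) (hcard : Nat.card V = ℓ ^ (n + 1)) (hu : u ∈ V)
    (hou : orderOf u = ℓ ^ n) {b : Cu u → FF M} (hb : IsBlk b)
    (hTp : Tp ℓ b (V.subgroupOf (Cu u))) :
    IsBlk (H75.push (H11.pq u) b) ∧
      (∃ V' : Subgroup (H11.Hq u), Tp ℓ (H75.push (H11.pq u) b) V' ∧ Nat.card V' = ℓ) ∧
      lb b = lb (H75.push (H11.pq u) b) := by
  have hF : GoodF ℓ (FF M) := PP.H50.fld ℓ hℓ.out M hM
  have hVC : V ≤ Cu u := by
    intro v hv
    rw [Subgroup.mem_centralizer_singleton_iff]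
    exact hcomm v hv u hu
  obtain ⟨V1, hV1⟩ : ∃ V1 : Subgroup (Cu u), V1 = V.subgroupOf (Cu u) := ⟨_, rfl⟩
  rw [← hV1] at hTp
  have hzV : H11.uc u ∈ V1 := by
    rw [hV1, Subgroup.mem_subgroupOf]
    exact hu
  have hzo : orderOf (H11.uc u) = ℓ ^ n := by
    rw [← hou]
    exact Subgroup.orderOf_mk u _
  have hV1c : Nat.card V1 = ℓ * orderOf (H11.uc u) := by
    rw [hzo, hV1, Nat.card_congr (Subgroup.subgroupOfEquivOfLe hVC).toEquiv, hcard, pow_succ,
      mul_comm]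
  have hps : Function.Surjective (H11.pq u) := QuotientGroup.mk'_surjective _
  have hpk : (H11.pq u).ker = Subgroup.zpowers (H11.uc u) := QuotientGroup.ker_mk' _
  have hQV : (H11.pq u).ker ≤ V1 := by rw [hpk]; exact Subgroup.zpowers_le.2 hzV
  have hVc : (V1.map (H11.pq u)).comap (H11.pq u) = V1 := Subgroup.comap_map_eq_self hQV
  have hkp : IsPGroup ℓ (H11.pq u).ker := hTp.pg.to_le hQV
  have hkc : (H11.pq u).ker ≤ Subgroup.center (Cu u) := by
    rw [hpk]; exact Subgroup.zpowers_le.2 (H11.uc_center u)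
  have hbi : IsIdem b := hb.1
  have hb' : IsBlk (PP.H75.push (H11.pq u) b) :=
    hPsn ℓ (FF M) hF _ _ (H11.pq u) hps hkp hkc b hb
  have hV'c : Nat.card (V1.map (H11.pq u)) = ℓ := by
    have h1 := PP.H75.card_comap hps (V1.map (H11.pq u))
    rw [hVc, hV1c, hpk, Nat.card_zpowers, mul_comm ℓ] at h1
    exact (Nat.eq_of_mul_eq_mul_left (orderOf_pos _) h1).symm
  have hV'g : Gd (PP.H75.push (H11.pq u) b) (V1.map (H11.pq u)) :=
    (H02.pug ℓ (FF M) hF _ _ (H11.pq u) hps hkp b hbi V1 hQV hTp.pg).1 hTp.gd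
  have hV't : Tp ℓ (PP.H75.push (H11.pq u) b) (V1.map (H11.pq u)) := by
    refine ⟨hTp.pg.map (H11.pq u), hV'g, ?_⟩
    intro R hR hRg
    have k1 : (H11.pq u).ker ≤ R.comap (H11.pq u) := by
      intro x hx
      rw [MonoidHom.mem_ker] at hx
      rw [Subgroup.mem_comap, hx]
      exact R.one_mem
    have k2 : IsPGroup ℓ (R.comap (H11.pq u)) := (PP.H75.isPGroup_comap_iff hps hkp R).2 hR
    have k3 := (H02.pug ℓ (FF M) hF _ _ (H11.pq u) hps hkp b hbi (R.comap (H11.pq u)) k1 k2).2 (by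
      rw [Subgroup.map_comap_eq_self_of_surjective hps]
      exact hRg)
    have k4 := hTp.mx _ k2 k3
    rw [← hVc, PP.H75.card_comap hps, PP.H75.card_comap hps] at k4
    exact Nat.le_of_mul_le_mul_left k4 Nat.card_pos
  have n5 := PP.H75.lnum_comap PP.H20.nls hF hps hkp ⊤ b
  rw [Subgroup.comap_top, H35.lnum_top, H35.lnum_top] at n5
  exact ⟨hb', ⟨_, hV't, hV'c⟩, n5⟩

end quot

section fus

variable {G : Type} [Group G]

theorem Cu_eq {u w : G} (h : Subgroup.zpowers w = Subgroup.zpowers u) : Cu w = Cu u := by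
  have h1 : ∀ v : G, Cu v = Subgroup.centralizer (Subgroup.zpowers v : Set G) := by
    intro v
    rw [Subgroup.zpowers_eq_closure, Subgroup.centralizer_closure]
  rw [h1, h1, h]

variable [Finite G]

theorem zp_conj {u t : G} (ht : t * u * t⁻¹ ∈ Subgroup.zpowers u) :
    Subgroup.zpowers (t * u * t⁻¹) = Subgroup.zpowers u := by
  have hle : Subgroup.zpowers (t * u * t⁻¹) ≤ Subgroup.zpowers u := by
    rw [Subgroup.zpowers_le]; exact ht
  have hord : orderOf (t * u * t⁻¹) = orderOf u :=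
    orderOf_injective (MulAut.conj t).toMonoidHom (MulAut.conj t).injective u
  exact Subgroup.eq_of_le_of_card_ge hle (by rw [Nat.card_zpowers, Nat.card_zpowers, hord])

theorem ex_pow {u x : G} (h : x ∈ Subgroup.zpowers u) : ∃ a : ℕ, x = u ^ a := by
  rw [← mem_powers_iff_mem_zpowers] at h
  obtain ⟨a, ha⟩ := h
  exact ⟨a, ha.symm⟩

/-- a block above `γ` for `u` is one for a generator of `⟨u⟩` -/
theorem ab_gen {F : Type} [Field F] {V : Subgroup G} {γ β : G → F} {u w : G}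
    (h : Subgroup.zpowers w = Subgroup.zpowers u) (hβ : Ab V γ u β) : Ab V γ w β := by
  refine ⟨?_, hβ.und⟩
  rw [Cu_eq h]
  exact hβ.bk

/-- conjugation by `t` on `C(u)` -/
theorem conj_mem {u t : G} (ht : t * u * t⁻¹ ∈ Subgroup.zpowers u) :
    (∀ c ∈ Cu u, t * c * t⁻¹ ∈ Cu u) ∧ ∀ c ∈ Cu u, t⁻¹ * c * t ∈ Cu u := by
  have h1 : ∀ c : G, t * c * t⁻¹ ∈ Cu (t * u * t⁻¹) ↔ c ∈ Cu u := by
    intro c
    rw [mem_Cu, mem_Cu]
    constructor
    · intro h
      calc c * u * c⁻¹ = t⁻¹ * ((t * c * t⁻¹) * (t * u * t⁻¹) * (t * c * t⁻¹)⁻¹) * t := by group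
        _ = u := by rw [h]; group
    · intro h
      calc (t * c * t⁻¹) * (t * u * t⁻¹) * (t * c * t⁻¹)⁻¹ = t * (c * u * c⁻¹) * t⁻¹ := by group
        _ = t * u * t⁻¹ := by rw [h]
  rw [Cu_eq (zp_conj ht)] at h1
  refine ⟨fun c hc => (h1 c).2 hc, fun c hc => ?_⟩
  have h2 : t * (t⁻¹ * c * t) * t⁻¹ = c := by group
  rw [← h1, h2]
  exact hc

/-- the powers of an element of `T` -/
theorem pow_idx {V T : Subgroup G} (hTV : T ≤ Subgroup.normalizer (V : Set G)) {s : G}
    (hs : s ∈ T) : s ^ (Subgroup.centralizer (V : Set G)).relIndex T ∈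
      Subgroup.centralizer (V : Set G) := by
  have hn : ((Subgroup.centralizer (V : Set G)).subgroupOf T).Normal := by
    constructor
    intro c hc t
    rw [Subgroup.mem_subgroupOf] at hc ⊢
    rw [Subgroup.mem_centralizer_iff] at hc ⊢
    intro v hv
    have h5 : (t : G)⁻¹ * v * (t : G) ∈ V := by
      have := (Subgroup.mem_normalizer_iff.1 (inv_mem (hTV t.2)) v).1 hv
      rwa [inv_inv] at this
    have h6 := hc _ h5
    change v * ((t : G) * c * (t : G)⁻¹) = (t : G) * c * (t : G)⁻¹ * v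
    calc v * ((t : G) * c * (t : G)⁻¹) = (t : G) * ((t : G)⁻¹ * v * t * c) * (t : G)⁻¹ := by
          group
      _ = (t : G) * (c * ((t : G)⁻¹ * v * t)) * (t : G)⁻¹ := by rw [h6]
      _ = (t : G) * c * (t : G)⁻¹ * v := by group
  exact Subgroup.pow_index_mem ((Subgroup.centralizer (V : Set G)).subgroupOf T) ⟨s, hs⟩

/-- an element of `T` which acts on `u` by a number `1 mod ℓ` centralises `u` -/
theorem key_T {ℓ : ℕ} [Fact ℓ.Prime] {M : Ideal (integralClosure ℤ ℂ)} [M.IsMaximal]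
    (hM : (ℓ : integralClosure ℤ ℂ) ∈ M) {e : G → FF M} {V : Subgroup G} {γ : G → FF M}
    {T : Subgroup G} (hI : Inr ℓ e V γ T) {n : ℕ} {u : G} (hu : u ∈ V) (hou : orderOf u = ℓ ^ n)
    {t : G} (ht : t ∈ T) {a : ℕ} (ha : t * u * t⁻¹ = u ^ a) (h1 : a ≡ 1 [MOD ℓ]) : t ∈ Cu u := by
  have hidx : ¬ ℓ ∣ (Subgroup.centralizer (V : Set G)).relIndex T := by
    rw [hI.stb]
    exact H34.inx ℓ M hM G e hI.blk V hI.tp hI.comm γ hI.gam.off hI.gam.blk hI.und
  have hTV : T ≤ Subgroup.normalizer (V : Set G) := by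
    rw [hI.stb]; exact inf_le_left
  refine key hou hidx ?_ ha h1
  have hle : Subgroup.centralizer (V : Set G) ≤ Cu u :=
    Subgroup.centralizer_le (Set.singleton_subset_iff.2 hu)
  exact hle (pow_idx hTV ht)

end fus

end Pool.Agent.PP.C2.H90
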