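import Pool.Agent.Helper57_C2.Stmts
import Pool.Agent.Helper90_K9.Cnj

/-!
# Squad C2, row TAU: conjugation by an element which normalises `⟨u⟩`
-/

open scoped BigOperators

noncomputable section

namespace Pool.Agent.PP.C2.H90

open Pool.Agent.Helper51_AWC Pool.Agent.Helper79_WRA Pool.Agent.PP Pool.Agent.PP.KF
open Pool.Agent.PP.K9 Pool.Agent.PP.C2
open Pool.Agent.PP.K9.H90 (exists_desc cj)

/-- TAU. -/
theorem tau : TauStmt := by
  intro ℓ q G H _ _ _ _ u π hQ t ht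
  have hle : Subgroup.zpowers (t * u * t⁻¹) ≤ Subgroup.zpowers u := by
    rw [Subgroup.zpowers_le]; exact ht
  have hord : orderOf (t * u * t⁻¹) = orderOf u :=
    orderOf_injective (MulAut.conj t).toMonoidHom (MulAut.conj t).injective u
  have z2 : Subgroup.zpowers (t * u * t⁻¹) = Subgroup.zpowers u :=
    Subgroup.eq_of_le_of_card_ge hle (by rw [Nat.card_zpowers, Nat.card_zpowers, hord])
  have hcom : ∀ c ∈ Cu u, ∀ z ∈ Subgroup.zpowers u, z * c = c * z := by
    intro c hc z hz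
    obtain ⟨k, rfl⟩ := Subgroup.mem_zpowers_iff.1 hz
    have h1 : Commute u c := Subgroup.mem_centralizer_iff.1 hc u rfl
    exact h1.zpow_left k
  have hz1 : ∀ z ∈ Subgroup.zpowers u, t * z * t⁻¹ ∈ Subgroup.zpowers u := by
    intro z hz
    obtain ⟨k, rfl⟩ := Subgroup.mem_zpowers_iff.1 hz
    rw [← conj_zpow]
    exact Subgroup.zpow_mem _ ht k
  have hz2 : ∀ z ∈ Subgroup.zpowers u, t⁻¹ * z * t ∈ Subgroup.zpowers u := by
    intro z hz
    rw [← z2] at hz
    obtain ⟨k, rfl⟩ := Subgroup.mem_zpowers_iff.1 hz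
    have : t⁻¹ * (t * u * t⁻¹) ^ k * t = u ^ k := by rw [conj_zpow]; group
    rw [this]
    exact Subgroup.zpow_mem _ (Subgroup.mem_zpowers u) k
  have hc1 : ∀ c ∈ Cu u, t * c * t⁻¹ ∈ Cu u := by
    intro c hc
    rw [Subgroup.mem_centralizer_iff]
    rintro x (rfl : x = u)
    have h1 := hcom c hc _ (hz2 x (Subgroup.mem_zpowers x))
    calc x * (t * c * t⁻¹) = t * ((t⁻¹ * x * t) * c) * t⁻¹ := by group
      _ = t * (c * (t⁻¹ * x * t)) * t⁻¹ := by rw [h1]
      _ = t * c * t⁻¹ * x := by group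
  have hc2 : ∀ c ∈ Cu u, t⁻¹ * c * t ∈ Cu u := by
    intro c hc
    rw [Subgroup.mem_centralizer_iff]
    rintro x (rfl : x = u)
    have h1 := hcom c hc _ (hz1 x (Subgroup.mem_zpowers x))
    calc x * (t⁻¹ * c * t) = t⁻¹ * ((t * x * t⁻¹) * c) * t := by group
      _ = t⁻¹ * (c * (t * x * t⁻¹)) * t := by rw [h1]
      _ = t⁻¹ * c * t * x := by group
  obtain ⟨τ, hτ⟩ := exists_desc π hQ.sur (cj (Cu u) t hc1 hc2) (by
    intro c
    rw [hQ.ker, hQ.ker]
    constructor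
    · intro h; exact hz1 _ h
    · intro h
      have h2 := hz2 _ h
      have : t⁻¹ * (t * (c : G) * t⁻¹) * t = c := by group
      rwa [show ((cj (Cu u) t hc1 hc2 c : Cu u) : G) = t * c * t⁻¹ from rfl, this] at h2)
  refine ⟨τ, fun s s' hs => ?_, fun s => hc1 s s.2, fun w p χ hχ => ?_⟩
  · rw [hτ]
    congr 1
    exact Subtype.ext hs
  · unfold Av
    rw [← finsum_comp_equiv (cj (Cu u) t hc1 hc2).toEquiv]
    refine congrArg _ (finsum_congr fun s => ?_)
    have hreg : Reg ℓ ((cj (Cu u) t hc1 hc2).toEquiv s) ↔ Reg ℓ s := by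
      unfold Reg
      rw [show ((cj (Cu u) t hc1 hc2).toEquiv s) = cj (Cu u) t hc1 hc2 s from rfl,
        MulEquiv.orderOf_eq]
    have hval : χ (t * w * t⁻¹ * ((cj (Cu u) t hc1 hc2).toEquiv s : Cu u)) = χ (w * s) := by
      have e1 : t * w * t⁻¹ * (((cj (Cu u) t hc1 hc2).toEquiv s : Cu u) : G) =
          (t * (w * s)) * t⁻¹ := by
        rw [show (((cj (Cu u) t hc1 hc2).toEquiv s : Cu u) : G) = t * s * t⁻¹ from rfl]
        group
      rw [e1, irr_mul_comm hχ]
      have e2 : t⁻¹ * (t * (w * (s : G))) = w * s := by group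
      rw [e2]
    have hp : p (π ((cj (Cu u) t hc1 hc2).toEquiv s)) = p (τ (π s)) := by
      rw [hτ]; rfl
    rw [hval, hp]
    exact finsum_congr_Prop (propext hreg) (fun _ => rfl)

end Pool.Agent.PP.C2.H90
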